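import Pool.Agent.H9.FC.TA

/-! Formulas are extensional (module FE). -/

namespace Pool.Agent.H37.FC

open Pool.Agent.H9.FC Pool.Agent.H9.FC.BSet

theorem fv_congr {B : Type} [CompleteBooleanAlgebra B] (φ : Fml) :
    ∀ (v v' : ℕ → BSet B) (c : B), (∀ i, c ≤ beq (v i) (v' i)) → c ⊓ fv φ v ≤ fv φ v' := by
  induction φ with
  | mem i j =>
    intro v v' c h
    have h1 : c ⊓ bmem (v i) (v j) ≤ bmem (v' i) (v j) :=
      (inf_le_inf_right _ (h i)).trans (bmem_congr_left _ _ _)
    have h2 : c ⊓ bmem (v' i) (v j) ≤ bmem (v' i) (v' j) :=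
      (inf_le_inf_right _ (h j)).trans (bmem_congr_right _ _ _)
    exact (le_inf inf_le_left h1).trans h2
  | eq i j =>
    intro v v' c h
    have h1 : c ⊓ beq (v i) (v j) ≤ beq (v' i) (v j) := by
      refine (inf_le_inf_right _ (h i)).trans ?_
      rw [beq_symm (v i) (v' i)]
      exact beq_trans _ _ _
    have h2 : c ⊓ beq (v' i) (v j) ≤ beq (v' i) (v' j) := by
      refine (inf_le_inf_right _ (h j)).trans ?_
      rw [inf_comm]
      exact beq_trans _ _ _
    exact (le_inf inf_le_left h1).trans h2
  | fal =>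
    intro v v' c _
    exact inf_le_right
  | imp φ ψ ih1 ih2 =>
    intro v v' c h
    have h' : ∀ i, c ≤ beq (v' i) (v i) := fun i => by rw [beq_symm]; exact h i
    show c ⊓ (fv φ v ⇨ fv ψ v) ≤ fv φ v' ⇨ fv ψ v'
    rw [le_himp_iff]
    have h1 : c ⊓ (fv φ v ⇨ fv ψ v) ⊓ fv φ v' ≤ fv φ v :=
      (le_inf (inf_le_left.trans inf_le_left) inf_le_right).trans (ih1 v' v c h')
    have h2 : c ⊓ (fv φ v ⇨ fv ψ v) ⊓ fv φ v' ≤ fv ψ v := by
      refine (le_inf h1 (inf_le_left.trans inf_le_right)).trans ?_
      exact inf_himp_le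
    exact (le_inf (inf_le_left.trans inf_le_left) h2).trans (ih2 v v' c h)
  | all i φ ih =>
    intro v v' c h
    show c ⊓ (⨅ x : BSet B, fv φ (Function.update v i x)) ≤
      ⨅ x : BSet B, fv φ (Function.update v' i x)
    refine le_iInf fun x => ?_
    refine (inf_le_inf_left _ (iInf_le _ x)).trans (ih _ _ c fun j => ?_)
    by_cases hj : j = i
    · subst hj
      rw [Function.update_self, Function.update_self, beq_refl]
      exact le_top
    · rw [Function.update_of_ne hj, Function.update_of_ne hj]
      exact h j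

theorem fv_bd {B : Type} [CompleteBooleanAlgebra B] (φ : Fml) :
    ∀ (v v' : ℕ → BSet B), (∀ i < φ.bd, v i = v' i) → fv φ v = fv φ v' := by
  induction φ with
  | mem i j =>
    intro v v' h
    have hi : i < (Fml.mem i j).bd := by simp only [Fml.bd]; omega
    have hj : j < (Fml.mem i j).bd := by simp only [Fml.bd]; omega
    show bmem (v i) (v j) = bmem (v' i) (v' j)
    rw [h i hi, h j hj]
  | eq i j =>
    intro v v' h
    have hi : i < (Fml.eq i j).bd := by simp only [Fml.bd]; omega
    have hj : j < (Fml.eq i j).bd := by simp only [Fml.bd]; omega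
    show beq (v i) (v j) = beq (v' i) (v' j)
    rw [h i hi, h j hj]
  | fal => intro v v' _; rfl
  | imp φ ψ ih1 ih2 =>
    intro v v' h
    show (fv φ v ⇨ fv ψ v) = (fv φ v' ⇨ fv ψ v')
    rw [ih1 v v' fun i hi => h i (lt_of_lt_of_le hi (le_max_left _ _)),
      ih2 v v' fun i hi => h i (lt_of_lt_of_le hi (le_max_right _ _))]
  | all i φ ih =>
    intro v v' h
    show (⨅ x : BSet B, fv φ (Function.update v i x)) = ⨅ x : BSet B, fv φ (Function.update v' i x)
    refine iInf_congr fun x => ih _ _ fun j hj => ?_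
    by_cases hji : j = i
    · subst hji
      rw [Function.update_self, Function.update_self]
    · rw [Function.update_of_ne hji, Function.update_of_ne hji]
      exact h j (lt_of_lt_of_le hj (le_max_right _ _))

theorem FE : T_FE := by
  intro B _ φ
  refine ⟨fun v i x y => ?_, fv_bd φ⟩
  refine fv_congr φ _ _ _ fun j => ?_
  by_cases hj : j = i
  · subst hj
    rw [Function.update_self, Function.update_self]
  · rw [Function.update_of_ne hj, Function.update_of_ne hj, beq_refl]
    exact le_top

end Pool.Agent.H37.FC
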